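import Pool.Agent.COS.Stmts

set_option autoImplicit false

/-!
# COS, row GRP: parity of the number of pairs
-/

namespace Pool.Agent.COS.H91

open Pool.Agent.PAR

/-- a symmetric and reflexive relation on a finite set `X` has `|X|` pairs modulo `2` -/
theorem parity {X : Type} [Finite X] (B : Set (X × X)) (hr : ∀ x, (x, x) ∈ B)
    (hs : ∀ x y, (x, y) ∈ B → (y, x) ∈ B) : B.ncard ≡ Nat.card X [MOD 2] := by
  classical
  have := Fintype.ofFinite X
  let f : Function.End B := fun p => ⟨(p.1.2, p.1.1), hs _ _ p.2⟩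
  have hf : f ^ 2 ^ 1 = 1 := by
    rw [pow_one, pow_two]
    rfl
  have : Fact (Nat.Prime 2) := ⟨Nat.prime_two⟩
  have h := Equiv.Perm.card_fixedPoints_modEq hf
  have h1 : Fintype.card (Function.fixedPoints f) = Fintype.card X := by
    symm
    refine Fintype.card_congr ⟨fun x => ⟨⟨(x, x), hr x⟩, rfl⟩, fun p => p.1.1.1, fun x => rfl, ?_⟩
    rintro ⟨⟨⟨x, y⟩, hxy⟩, hp⟩
    have h2 := congrArg (fun q : B => q.1.1) hp
    change y = x at h2
    subst h2
    rfl
  rw [h1] at h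
  rw [Nat.card_eq_fintype_card, ← Nat.card_coe_set_eq, Nat.card_eq_fintype_card]
  exact h

/-- GRP -/
theorem grp : GrpStmt := by
  intro H X _ _ _ W hW hh hX
  obtain ⟨g, hg⟩ := hW
  obtain ⟨B, hB⟩ : ∃ B : Set (X × X), B = {p | ∃ w ∈ W, w • (g⁻¹ • p.1) = p.2} := ⟨_, rfl⟩
  have h1 : B = (fun p : X × X => (g • p.1, p.2)) '' {p : X × X | ∃ w ∈ W, w • p.1 = p.2} := by
    rw [hB]
    ext p
    constructor
    · rintro ⟨w, hw, h⟩
      exact ⟨(g⁻¹ • p.1, p.2), ⟨w, hw, h⟩, by simp⟩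
    · rintro ⟨q, ⟨w, hw, h⟩, rfl⟩
      exact ⟨w, hw, by simpa using h⟩
  have hinj : Function.Injective fun p : X × X => (g • p.1, p.2) := by
    rintro ⟨a, b⟩ ⟨c, d⟩ h
    simp only [Prod.mk.injEq, smul_left_cancel_iff] at h
    exact Prod.ext h.1 h.2
  have h2 : B.ncard = {p : X × X | ∃ w ∈ W, w • p.1 = p.2}.ncard := by
    rw [h1, Set.ncard_image_of_injective _ hinj]
  rw [← h2]
  have h3 : B.ncard ≡ Nat.card X [MOD 2] := by
    apply parity
    · intro x
      rw [hB]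
      exact ⟨g, hg, by simp⟩
    · intro x y hxy
      rw [hB] at hxy ⊢
      obtain ⟨w, hw, h⟩ := hxy
      refine ⟨g * w⁻¹ * g, hh g hg w hw g hg, ?_⟩
      change w • (g⁻¹ • x) = y at h
      change (g * w⁻¹ * g) • (g⁻¹ • y) = x
      rw [← h, smul_smul, smul_smul, smul_smul]
      simp
  rw [Nat.odd_iff] at hX ⊢
  rw [← hX]
  exact h3

end Pool.Agent.COS.H91
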